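import Mathlib

/-! # A countable family of functions for a semi-translation plane

Back-and-forth construction of functions `f z : ℚ × ℚ → ℚ × ℚ` (`z : ℕ`), following a paper proof of
helper39. -/

namespace Pool.Agent.Q238.PlaneFun

/-- The displacement `d` from the fibre over `O` to the fibre over `O'` is realised by a line of the
first kind. -/
def Fb (O O' d : ℚ × ℚ) : Prop :=
  (O.1 = O'.1 ∧ d.1 = 0) ∨
  (O.1 ≠ O'.1 ∧ ∃ s c : ℚ, O.2 = s * O.1 + c ∧ O'.2 = s * O'.1 + c ∧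
    d.2 = s * d.1 + (s ^ 2 - s) * c * (O'.1 - O.1))

theorem Fb.neg {O O' d : ℚ × ℚ} (h : Fb O O' d) : Fb O' O (-d) := by
  rcases h with ⟨h1, h2⟩ | ⟨h1, s, c, h2, h3, h4⟩
  · exact Or.inl ⟨h1.symm, by simp [h2]⟩
  · refine Or.inr ⟨fun h => h1 h.symm, s, c, h3, h2, ?_⟩
    simp only [Prod.snd_neg, Prod.fst_neg]
    rw [h4]; ring

theorem slope_unique {x x' s s' c c' : ℚ} (hx : x ≠ x') (h1 : s * x + c = s' * x + c')
    (h2 : s * x' + c = s' * x' + c') : s = s' ∧ c = c' := by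
  have h3 : (s - s') * (x - x') = 0 := by linear_combination h1 - h2
  have h4 : s = s' := by
    rcases mul_eq_zero.1 h3 with h | h
    · linarith
    · exact absurd (by linarith) hx
  refine ⟨h4, ?_⟩
  rw [h4] at h1
  linarith

abbrev Tr := (ℕ × (ℚ × ℚ)) × (ℚ × ℚ)

/-- Valid finite partial families. -/
structure Val (s : Finset Tr) : Prop where
  fn : ∀ z O g g', ((z, O), g) ∈ s → ((z, O), g') ∈ s → g = g'
  i1 : ∀ z O O' g g', O ≠ O' → ((z, O), g) ∈ s → ((z, O'), g') ∈ s → ¬ Fb O O' (g' - g)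
  i2 : ∀ z z' O O' a a' b b', z ≠ z' → O ≠ O' → ((z, O), a) ∈ s → ((z, O'), a') ∈ s →
    ((z', O), b) ∈ s → ((z', O'), b') ∈ s → a' - a ≠ b' - b

theorem Val.insert {s : Finset Tr} (hs : Val s) (z : ℕ) (O g : ℚ × ℚ)
    (hfn : ∀ g', ((z, O), g') ∉ s)
    (h1 : ∀ O' g', ((z, O'), g') ∈ s → ¬ Fb O' O (g - g'))
    (h2 : ∀ z', z' ≠ z → ∀ O' a' b b', ((z, O'), a') ∈ s → ((z', O), b) ∈ s →
      ((z', O'), b') ∈ s → g - a' ≠ b - b') : Val (insert ((z, O), g) s) where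
  fn := by
    intro w Q g1 g2 m1 m2
    rcases Finset.mem_insert.1 m1 with n1 | n1 <;> rcases Finset.mem_insert.1 m2 with n2 | n2
    · simp only [Prod.mk.injEq] at n1 n2
      rw [n1.2, n2.2]
    · simp only [Prod.mk.injEq] at n1
      rw [n1.1.1, n1.1.2] at n2
      exact absurd n2 (hfn _)
    · simp only [Prod.mk.injEq] at n2
      rw [n2.1.1, n2.1.2] at n1
      exact absurd n1 (hfn _)
    · exact hs.fn _ _ _ _ n1 n2
  i1 := by
    intro w Q Q' g1 g2 hQ m1 m2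
    rcases Finset.mem_insert.1 m1 with n1 | n1 <;> rcases Finset.mem_insert.1 m2 with n2 | n2
    · simp only [Prod.mk.injEq] at n1 n2
      exact absurd (n1.1.2.trans n2.1.2.symm) hQ
    · simp only [Prod.mk.injEq] at n1
      rw [n1.1.1] at n2
      rw [n1.1.2, n1.2]
      intro hF
      have := hF.neg
      rw [neg_sub] at this
      exact h1 _ _ n2 this
    · simp only [Prod.mk.injEq] at n2
      rw [n2.1.1] at n1
      rw [n2.1.2, n2.2]
      exact h1 _ _ n1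
    · exact hs.i1 _ _ _ _ _ hQ n1 n2
  i2 := by
    intro w w' Q Q' a a' b b' hw hQ m1 m2 m3 m4
    rcases Finset.mem_insert.1 m1 with n1 | n1 <;> rcases Finset.mem_insert.1 m2 with n2 | n2 <;>
      rcases Finset.mem_insert.1 m3 with n3 | n3 <;> rcases Finset.mem_insert.1 m4 with n4 | n4
    all_goals try simp only [Prod.mk.injEq] at n1
    all_goals try simp only [Prod.mk.injEq] at n2
    all_goals try simp only [Prod.mk.injEq] at n3
    all_goals try simp only [Prod.mk.injEq] at n4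
    all_goals first
      | exact absurd (n1.1.2.trans n2.1.2.symm) hQ
      | exact absurd (n3.1.2.trans n4.1.2.symm) hQ
      | exact absurd (n1.1.1.trans n3.1.1.symm) hw
      | exact absurd (n2.1.1.trans n4.1.1.symm) hw
      | exact absurd (n1.1.1.trans n4.1.1.symm) hw
      | exact absurd (n2.1.1.trans n3.1.1.symm) hw
      | skip
    · rw [n1.1.1] at n2 hw
      rw [n1.1.2] at n3 hQ
      rw [n1.2]
      intro h
      exact h2 w' (Ne.symm hw) Q' a' b b' n2 n3 n4 (by rw [← neg_sub, h, neg_sub])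
    · rw [n2.1.1] at n1 hw
      rw [n2.1.2] at n4 hQ
      rw [n2.2]
      exact h2 w' (Ne.symm hw) Q a b' b n1 n4 n3
    · rw [n3.1.1] at n4 hw
      rw [n3.1.2] at n1 hQ
      rw [n3.2]
      intro h
      exact h2 w hw Q' b' a a' n4 n1 n2 (by rw [← neg_sub, ← h, neg_sub])
    · rw [n4.1.1] at n3 hw
      rw [n4.1.2] at n2 hQ
      rw [n4.2]
      intro h
      exact h2 w hw Q b a' a n3 n2 n1 h.symm
    · exact hs.i2 _ _ _ _ _ _ _ _ hw hQ n1 n2 n3 n4

/-- For `O ≠ O'` the parabola `(t, t^2)` meets the forbidden line in finitely many points. -/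
theorem finite_parabola (O O' a : ℚ × ℚ) (hO : O ≠ O') :
    {t : ℚ | Fb O O' ((t, t ^ 2) - a)}.Finite := by
  by_cases h : O.1 = O'.1
  · apply (Set.finite_singleton a.1).subset
    rintro t (⟨-, h2⟩ | ⟨h2, -⟩)
    · simp only [Prod.fst_sub] at h2
      exact (by linarith : t = a.1)
    · exact absurd h h2
  · by_cases hne : ∃ t, Fb O O' ((t, t ^ 2) - a)
    · obtain ⟨t0, ht0⟩ := hne
      rcases ht0 with ⟨h2, -⟩ | ⟨h1, s, c, h2, h3, h4⟩
      · exact absurd h2 h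
      apply ((Set.finite_singleton t0).union (Set.finite_singleton (s - t0))).subset
      rintro t (⟨h5, -⟩ | ⟨-, s', c', h5, h6, h7⟩)
      · exact absurd h5 h
      · obtain ⟨e1, e2⟩ := slope_unique h (h2.symm.trans h5) (h3.symm.trans h6)
        subst e1 e2
        simp only [Prod.snd_sub, Prod.fst_sub] at h4 h7
        have h8 : (t - t0) * (t + t0 - s) = 0 := by linear_combination h7 - h4
        rcases mul_eq_zero.1 h8 with h9 | h9
        · left; exact (by linarith : t = t0)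
        · right; exact (by linarith : t = s - t0)
    · have : {t : ℚ | Fb O O' ((t, t ^ 2) - a)} = ∅ := by
        ext t
        simp only [Set.mem_ofPred_eq, Set.mem_empty_iff_false, iff_false]
        exact fun h => hne ⟨t, h⟩
      rw [this]; exact Set.finite_empty

theorem avoid (K : Finset ((ℚ × ℚ) × (ℚ × ℚ) × (ℚ × ℚ))) (pts : Finset (ℚ × ℚ)) :
    ∃ g : ℚ × ℚ, (∀ k ∈ K, k.1 ≠ k.2.1 → ¬ Fb k.1 k.2.1 (g - k.2.2)) ∧ g ∉ pts := by
  have h1 : (⋃ k ∈ K, {t : ℚ | k.1 ≠ k.2.1 ∧ Fb k.1 k.2.1 ((t, t ^ 2) - k.2.2)}).Finite := by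
    apply Set.Finite.biUnion K.finite_toSet
    intro k _
    by_cases h : k.1 = k.2.1
    · apply Set.finite_empty.subset
      rintro t ⟨h1, -⟩
      exact absurd h h1
    · apply (finite_parabola k.1 k.2.1 k.2.2 h).subset
      rintro t ⟨-, h1⟩
      exact h1
  have h2 : ((pts.image Prod.fst : Finset ℚ) : Set ℚ).Finite := Finset.finite_toSet _
  obtain ⟨t, ht⟩ := (h1.union h2).exists_notMem
  refine ⟨(t, t ^ 2), ?_, ?_⟩
  · intro k hk hne hF
    apply ht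
    left
    exact Set.mem_biUnion hk ⟨hne, hF⟩
  · intro hp
    apply ht
    right
    exact Finset.mem_coe.2 (Finset.mem_image.2 ⟨_, hp, rfl⟩)

/-- Totality. -/
theorem step_tot (s : Finset Tr) (hs : Val s) (z : ℕ) (O : ℚ × ℚ) :
    ∃ t, Val t ∧ s ⊆ t ∧ ∃ g, ((z, O), g) ∈ t := by
  by_cases h : ∃ g, ((z, O), g) ∈ s
  · exact ⟨s, hs, subset_rfl, h⟩
  push Not at h
  obtain ⟨g, hg1, hg2⟩ := avoid (s.image fun t => (t.1.2, O, t.2))
    ((s ×ˢ s ×ˢ s).image fun t => t.1.2 - t.2.1.2 + t.2.2.2)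
  refine ⟨insert ((z, O), g) s, hs.insert z O g h ?_ ?_, Finset.subset_insert _ _, g,
    Finset.mem_insert_self _ _⟩
  · intro O' g' hm
    have hne : O' ≠ O := by
      rintro rfl
      exact h _ hm
    exact hg1 (O', O, g') (Finset.mem_image.2 ⟨_, hm, rfl⟩) hne
  · intro z' _ O' a' b b' m1 m2 m3 he
    apply hg2
    refine Finset.mem_image.2 ⟨(((z', O), b), ((z', O'), b'), ((z, O'), a')), ?_, ?_⟩
    · simp [m1, m2, m3]
    · show b - b' + a' = g
      rw [← he]; abel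

/-- Step (A). -/
theorem step_A (s : Finset Tr) (hs : Val s) (O O' d : ℚ × ℚ) (hO : O ≠ O') (hd : ¬ Fb O O' d) :
    ∃ t, Val t ∧ s ⊆ t ∧ ∃ z g g', ((z, O), g) ∈ t ∧ ((z, O'), g') ∈ t ∧ g' - g = d := by
  by_cases h : ∃ z g g', ((z, O), g) ∈ s ∧ ((z, O'), g') ∈ s ∧ g' - g = d
  · exact ⟨s, hs, subset_rfl, h⟩
  push Not at h
  obtain ⟨z, hz⟩ := (s.image fun t => t.1.1).exists_notMem
  have hz' : ∀ Q g, ((z, Q), g) ∉ s := fun Q g hm => hz (Finset.mem_image.2 ⟨_, hm, rfl⟩)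
  have v1 : Val (insert ((z, O), 0) s) := hs.insert z O 0 (hz' O)
    (fun Q g hm => absurd hm (hz' _ _)) (fun _ _ Q a' _ _ hm => absurd hm (hz' _ _))
  refine ⟨insert ((z, O'), d) (insert ((z, O), 0) s), v1.insert z O' d ?_ ?_ ?_,
    (Finset.subset_insert _ _).trans (Finset.subset_insert _ _), z, 0, d, by simp, by simp,
    sub_zero d⟩
  · intro g hm
    rcases Finset.mem_insert.1 hm with hm | hm
    · simp only [Prod.mk.injEq] at hm
      exact hO hm.1.2.symm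
    · exact hz' _ _ hm
  · intro Q g hm
    rcases Finset.mem_insert.1 hm with hm | hm
    · simp only [Prod.mk.injEq] at hm
      obtain ⟨⟨-, rfl⟩, rfl⟩ := hm
      rwa [sub_zero]
    · exact absurd hm (hz' _ _)
  · intro z' hzz Q a b b' m1 m2 m3
    rcases Finset.mem_insert.1 m1 with m1 | m1
    · simp only [Prod.mk.injEq] at m1
      obtain ⟨⟨-, rfl⟩, rfl⟩ := m1
      rcases Finset.mem_insert.1 m2 with m2 | m2
      · simp only [Prod.mk.injEq] at m2
        exact absurd m2.1.1 hzz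
      rcases Finset.mem_insert.1 m3 with m3 | m3
      · simp only [Prod.mk.injEq] at m3
        exact absurd m3.1.1 hzz
      rw [sub_zero]
      exact fun he => h z' b' b m3 m2 he.symm
    · exact absurd m1 (hz' _ _)

/-- Step (B). -/
theorem step_B (s : Finset Tr) (hs : Val s) (z z' : ℕ) (d : ℚ × ℚ) (hz : z ≠ z') :
    ∃ t, Val t ∧ s ⊆ t ∧ ∃ O g g', ((z, O), g) ∈ t ∧ ((z', O), g') ∈ t ∧ g - g' = d := by
  by_cases h : ∃ O g g', ((z, O), g) ∈ s ∧ ((z', O), g') ∈ s ∧ g - g' = d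
  · exact ⟨s, hs, subset_rfl, h⟩
  push Not at h
  obtain ⟨O, hO⟩ := (s.image fun t => t.1.2).exists_notMem
  have hO' : ∀ w g, ((w, O), g) ∉ s := fun Q g hm => hO (Finset.mem_image.2 ⟨_, hm, rfl⟩)
  obtain ⟨v, hv, -⟩ := avoid ((s.image fun t => (t.1.2, O, t.2)) ∪
    (s.image fun t => (t.1.2, O, t.2 - d))) ∅
  have hne : ∀ w Q g, ((w, Q), g) ∈ s → Q ≠ O := by
    rintro w Q g hm rfl
    exact hO' _ _ hm
  have v1 : Val (insert ((z', O), v) s) := hs.insert z' O v (hO' z')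
    (fun Q g hm => hv (Q, O, g) (Finset.mem_union_left _ (Finset.mem_image.2 ⟨_, hm, rfl⟩))
      (hne _ _ _ hm)) (fun w _ Q a' b b' _ hm => absurd hm (hO' _ _))
  refine ⟨insert ((z, O), v + d) (insert ((z', O), v) s), v1.insert z O (v + d) ?_ ?_ ?_,
    (Finset.subset_insert _ _).trans (Finset.subset_insert _ _), O, v + d, v, by simp, by simp,
    by abel⟩
  · intro g hm
    rcases Finset.mem_insert.1 hm with hm | hm
    · simp only [Prod.mk.injEq] at hm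
      exact hz hm.1.1
    · exact hO' _ _ hm
  · intro Q g hm
    rcases Finset.mem_insert.1 hm with hm | hm
    · simp only [Prod.mk.injEq] at hm
      exact absurd hm.1.1 hz
    · have := hv (Q, O, g - d) (Finset.mem_union_right _ (Finset.mem_image.2 ⟨_, hm, rfl⟩))
        (hne _ _ _ hm)
      simpa [sub_sub_eq_add_sub] using this
  · intro w hw Q a b b' m1 m2 m3
    have m1' : ((z, Q), a) ∈ s := by
      rcases Finset.mem_insert.1 m1 with m1 | m1
      · simp only [Prod.mk.injEq] at m1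
        exact absurd m1.1.1 hz
      · exact m1
    rcases Finset.mem_insert.1 m2 with m2 | m2
    · simp only [Prod.mk.injEq] at m2
      obtain ⟨⟨rfl, -⟩, rfl⟩ := m2
      rcases Finset.mem_insert.1 m3 with m3 | m3
      · simp only [Prod.mk.injEq] at m3
        exact absurd m3.1.2 (hne _ _ _ m1')
      · intro he
        apply h Q a b' m1' m3
        have : a - b' = (b + d) - (b + d - a) - b' := by abel
        rw [this, he]; abel
    · exact absurd m2 (hO' _ _)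

/-- Insertion at a new base point. -/
theorem insert_new (s : Finset Tr) (hs : Val s) (z : ℕ) (O g : ℚ × ℚ)
    (hO : ∀ w g, ((w, O), g) ∉ s) (h1 : ∀ O' g', ((z, O'), g') ∈ s → ¬ Fb O' O (g - g')) :
    Val (insert ((z, O), g) s) :=
  hs.insert z O g (hO z) h1 (fun w _ Q a' b b' _ hm => absurd hm (hO _ _))

/-- Step (C). -/
theorem step_C (s : Finset Tr) (hs : Val s) (z : ℕ) (m c k : ℚ) :
    ∃ t, Val t ∧ s ⊆ t ∧ ∃ x g, ((z, (x, m * x + c)), g) ∈ t ∧
      g.2 = m * g.1 + k + (m ^ 2 - m) * c * x := by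
  by_cases h : ∃ x g, ((z, (x, m * x + c)), g) ∈ s ∧ g.2 = m * g.1 + k + (m ^ 2 - m) * c * x
  · obtain ⟨x, g, h1, h2⟩ := h
    exact ⟨s, hs, subset_rfl, x, g, h1, h2⟩
  push Not at h
  obtain ⟨x, hx⟩ := (s.image fun t => t.1.2.1).exists_notMem
  have hO : ∀ w g, ((w, ((x, m * x + c) : ℚ × ℚ)), g) ∉ s := fun w g hm =>
    hx (Finset.mem_image.2 ⟨_, hm, rfl⟩)
  have hfin : (⋃ t ∈ s, {y : ℚ | t.1.1 = z ∧ Fb t.1.2 (x, m * x + c)
      ((y, m * y + k + (m ^ 2 - m) * c * x) - t.2)}).Finite := by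
    apply Set.Finite.biUnion s.finite_toSet
    rintro ⟨⟨w, Q⟩, a⟩ hm
    have hQx : Q.1 ≠ x := fun he => hx (Finset.mem_image.2 ⟨_, hm, he⟩)
    by_cases hne : ∃ y : ℚ, w = z ∧ Fb Q (x, m * x + c)
      ((y, m * y + k + (m ^ 2 - m) * c * x) - a)
    · obtain ⟨y0, hw, hy0⟩ := hne
      subst hw
      rcases hy0 with ⟨h2, -⟩ | ⟨h1, m', c', h2, h3, h4⟩
      · exact absurd h2 hQx
      have hm' : m ≠ m' := by
        rintro rfl
        have hc : c = c' := by simp only at h3; linarith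
        subst hc
        apply h Q.1 a
        · rw [← h2]; exact hm
        · simp only [Prod.snd_sub, Prod.fst_sub] at h4
          linear_combination -h4
      apply (Set.finite_singleton y0).subset
      rintro y ⟨-, ⟨h5, -⟩ | ⟨-, s', c'', h5, h6, h7⟩⟩
      · exact absurd h5 hQx
      · simp only at h3 h6 h5 h2
        obtain ⟨e1, e2⟩ := slope_unique (h1 : Q.1 ≠ x) (h2.symm.trans h5) (h3.symm.trans h6)
        subst e1 e2
        simp only [Prod.snd_sub, Prod.fst_sub] at h4 h7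
        have h8 : (m - m') * (y - y0) = 0 := by linear_combination h7 - h4
        rcases mul_eq_zero.1 h8 with h9 | h9
        · exact absurd (by linarith) hm'
        · exact (by linarith : y = y0)
    · have : {y : ℚ | w = z ∧ Fb Q (x, m * x + c)
          ((y, m * y + k + (m ^ 2 - m) * c * x) - a)} = ∅ := by
        ext t
        simp only [Set.mem_ofPred_eq, Set.mem_empty_iff_false, iff_false]
        exact fun h => hne ⟨t, h⟩
      show {y : ℚ | w = z ∧ Fb Q (x, m * x + c)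
          ((y, m * y + k + (m ^ 2 - m) * c * x) - a)}.Finite
      rw [this]; exact Set.finite_empty
  obtain ⟨y, hy⟩ := hfin.exists_notMem
  refine ⟨insert ((z, (x, m * x + c)), (y, m * y + k + (m ^ 2 - m) * c * x)) s,
    insert_new s hs z _ _ hO ?_, Finset.subset_insert _ _, x, _, Finset.mem_insert_self _ _, rfl⟩
  intro Q g hm hF
  exact hy (Set.mem_biUnion hm ⟨rfl, hF⟩)

/-- Step (C) for verticals. -/
theorem step_V (s : Finset Tr) (hs : Val s) (z : ℕ) (a b : ℚ) :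
    ∃ t, Val t ∧ s ⊆ t ∧ ∃ y g, ((z, (a, y)), g) ∈ t ∧ g.1 = b := by
  by_cases h : ∃ y g, ((z, (a, y)), g) ∈ s ∧ g.1 = b
  · obtain ⟨x, g, h1, h2⟩ := h
    exact ⟨s, hs, subset_rfl, x, g, h1, h2⟩
  push Not at h
  obtain ⟨y, hy⟩ := (s.image fun t => t.1.2.2).exists_notMem
  have hO : ∀ w g, ((w, ((a, y) : ℚ × ℚ)), g) ∉ s := fun w g hm =>
    hy (Finset.mem_image.2 ⟨_, hm, rfl⟩)
  have hfin : (⋃ t ∈ s, {r : ℚ | t.1.1 = z ∧ Fb t.1.2 (a, y) ((b, r) - t.2)}).Finite := by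
    apply Set.Finite.biUnion s.finite_toSet
    rintro ⟨⟨w, Q⟩, e⟩ hm
    show {r : ℚ | w = z ∧ Fb Q (a, y) ((b, r) - e)}.Finite
    by_cases hne : ∃ r : ℚ, w = z ∧ Fb Q (a, y) ((b, r) - e)
    · obtain ⟨r0, hw, hr0⟩ := hne
      subst hw
      rcases hr0 with ⟨h2, h3⟩ | ⟨h1, m', c', h2, h3, h4⟩
      · simp only [Prod.fst_sub] at h2 h3
        exfalso
        apply h Q.2 e
        · rw [← h2]; exact hm
        · linarith
      apply (Set.finite_singleton r0).subset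
      rintro r ⟨-, ⟨h5, -⟩ | ⟨-, s', c'', h5, h6, h7⟩⟩
      · exact absurd h5 h1
      · simp only at h3 h6 h5 h2
        obtain ⟨e1, e2⟩ := slope_unique (h1 : Q.1 ≠ a) (h2.symm.trans h5) (h3.symm.trans h6)
        subst e1 e2
        simp only [Prod.snd_sub, Prod.fst_sub] at h4 h7
        exact (by linarith : r = r0)
    · have : {r : ℚ | w = z ∧ Fb Q (a, y) ((b, r) - e)} = ∅ := by
        ext t
        simp only [Set.mem_ofPred_eq, Set.mem_empty_iff_false, iff_false]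
        exact fun h => hne ⟨t, h⟩
      rw [this]; exact Set.finite_empty
  obtain ⟨r, hr⟩ := hfin.exists_notMem
  refine ⟨insert ((z, (a, y)), (b, r)) s,
    insert_new s hs z _ _ hO ?_, Finset.subset_insert _ _, y, _, Finset.mem_insert_self _ _, rfl⟩
  intro Q g hm hF
  exact hr (Set.mem_biUnion hm ⟨rfl, hF⟩)

/-- Rasiowa-Sikorski for finite sets. -/
theorem generic {ι : Type} [Encodable ι] (D : ι → Finset Tr → Prop)
    (hmono : ∀ i s t, s ⊆ t → D i s → D i t)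
    (hd : ∀ i s, Val s → ∃ t, Val t ∧ s ⊆ t ∧ D i t) :
    ∃ S : ℕ → Finset Tr, Monotone S ∧ (∀ n, Val (S n)) ∧ ∀ i, ∃ n, D i (S n) := by
  have v0 : Val ∅ := ⟨by simp, by simp, by simp⟩
  let P := {s : Finset Tr // Val s}
  let 𝒟 : ι → Order.Cofinal P := fun i => ⟨{s : P | D i s.1}, by
    rintro ⟨s, hs⟩
    obtain ⟨t, ht, hst, hD⟩ := hd i s hs
    exact ⟨⟨t, ht⟩, hD, hst⟩⟩
  let S : ℕ → P := Order.sequenceOfCofinals (⟨∅, v0⟩ : P) 𝒟
  refine ⟨fun n => (S n).1, ?_, fun n => (S n).2, fun i => ⟨Encodable.encode i + 1, ?_⟩⟩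
  · intro a b hab
    exact Order.sequenceOfCofinals.monotone (⟨∅, v0⟩ : P) 𝒟 hab
  · exact Order.sequenceOfCofinals.encode_mem (⟨∅, v0⟩ : P) 𝒟 i

/-- **The functions.** -/
theorem exists_functions : ∃ f : ℕ → ℚ × ℚ → ℚ × ℚ,
    (∀ z O O', O ≠ O' → ¬ Fb O O' (f z O' - f z O)) ∧
    (∀ z z' O O', z ≠ z' → O ≠ O' → f z O' - f z O ≠ f z' O' - f z' O) ∧
    (∀ O O' d, O ≠ O' → ¬ Fb O O' d → ∃ z, f z O' - f z O = d) ∧
    (∀ z z' d, z ≠ z' → ∃ O, f z O - f z' O = d) ∧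
    (∀ z m c k, ∃ x, (f z (x, m * x + c)).2 =
      m * (f z (x, m * x + c)).1 + k + (m ^ 2 - m) * c * x) ∧
    (∀ z a b, ∃ y, (f z (a, y)).1 = b) := by
  let ι := (ℕ × (ℚ × ℚ)) ⊕ ((ℚ × ℚ) × (ℚ × ℚ) × (ℚ × ℚ)) ⊕ (ℕ × ℕ × (ℚ × ℚ)) ⊕
    (ℕ × ℚ × ℚ × ℚ) ⊕ (ℕ × ℚ × ℚ)
  have : Encodable ι := Encodable.ofCountable ι
  let D : ι → Finset Tr → Prop := fun i t =>
    match i with
    | Sum.inl (z, O) => ∃ g, ((z, O), g) ∈ t
    | Sum.inr (Sum.inl (O, O', d)) => O ≠ O' → ¬ Fb O O' d →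
        ∃ z g g', ((z, O), g) ∈ t ∧ ((z, O'), g') ∈ t ∧ g' - g = d
    | Sum.inr (Sum.inr (Sum.inl (z, z', d))) => z ≠ z' →
        ∃ O g g', ((z, O), g) ∈ t ∧ ((z', O), g') ∈ t ∧ g - g' = d
    | Sum.inr (Sum.inr (Sum.inr (Sum.inl (z, m, c, k)))) =>
        ∃ x g, ((z, (x, m * x + c)), g) ∈ t ∧ g.2 = m * g.1 + k + (m ^ 2 - m) * c * x
    | Sum.inr (Sum.inr (Sum.inr (Sum.inr (z, a, b)))) =>
        ∃ y g, ((z, (a, y)), g) ∈ t ∧ g.1 = b
  obtain ⟨S, hS, hV, hD⟩ := generic D (by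
    rintro (⟨z, O⟩ | ⟨O, O', d⟩ | ⟨z, z', d⟩ | ⟨z, m, c, k⟩ | ⟨z, a, b⟩) s t hst h
    · obtain ⟨g, hg⟩ := h
      exact ⟨g, hst hg⟩
    · intro h1 h2
      obtain ⟨z, g, g', m1, m2, m3⟩ := h h1 h2
      exact ⟨z, g, g', hst m1, hst m2, m3⟩
    · intro h1
      obtain ⟨z, g, g', m1, m2, m3⟩ := h h1
      exact ⟨z, g, g', hst m1, hst m2, m3⟩
    · obtain ⟨x, g, m1, m2⟩ := h
      exact ⟨x, g, hst m1, m2⟩
    · obtain ⟨x, g, m1, m2⟩ := h
      exact ⟨x, g, hst m1, m2⟩) (by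
    rintro (⟨z, O⟩ | ⟨O, O', d⟩ | ⟨z, z', d⟩ | ⟨z, m, c, k⟩ | ⟨z, a, b⟩) s hs
    · exact step_tot s hs z O
    · by_cases h1 : O ≠ O'
      · by_cases h2 : ¬ Fb O O' d
        · obtain ⟨t, ht, hst, h⟩ := step_A s hs O O' d h1 h2
          exact ⟨t, ht, hst, fun _ _ => h⟩
        · exact ⟨s, hs, subset_rfl, fun _ h => absurd h h2⟩
      · exact ⟨s, hs, subset_rfl, fun h => absurd h h1⟩
    · by_cases h1 : z ≠ z'
      · obtain ⟨t, ht, hst, h⟩ := step_B s hs z z' d h1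
        exact ⟨t, ht, hst, fun _ => h⟩
      · exact ⟨s, hs, subset_rfl, fun h => absurd h h1⟩
    · exact step_C s hs z m c k
    · exact step_V s hs z a b)
  have htot : ∀ z O, ∃ g, ∃ n, ((z, O), g) ∈ S n := by
    intro z O
    obtain ⟨n, g, hg⟩ := hD (Sum.inl (z, O))
    exact ⟨g, n, hg⟩
  choose f hf using htot
  have huniq : ∀ z O g n, ((z, O), g) ∈ S n → f z O = g := by
    intro z O g n hg
    obtain ⟨k, hk⟩ := hf z O
    exact (hV (max k n)).fn z O _ _ (hS (le_max_left _ _) hk) (hS (le_max_right _ _) hg)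
  have hmem : ∀ z O, ∃ n, ∀ k, n ≤ k → ((z, O), f z O) ∈ S k := by
    intro z O
    obtain ⟨k, hk⟩ := hf z O
    exact ⟨k, fun l hl => hS hl hk⟩
  refine ⟨f, ?_, ?_, ?_, ?_, ?_, ?_⟩
  · intro z O O' hO
    obtain ⟨n, hn⟩ := hmem z O
    obtain ⟨k, hk⟩ := hmem z O'
    exact (hV (max n k)).i1 z O O' _ _ hO (hn _ (le_max_left _ _)) (hk _ (le_max_right _ _))
  · intro z z' O O' hz hO
    obtain ⟨n1, h1⟩ := hmem z O
    obtain ⟨n2, h2⟩ := hmem z O'
    obtain ⟨n3, h3⟩ := hmem z' O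
    obtain ⟨n4, h4⟩ := hmem z' O'
    exact (hV (n1 + n2 + n3 + n4)).i2 z z' O O' _ _ _ _ hz hO (h1 _ (by omega)) (h2 _ (by omega))
      (h3 _ (by omega)) (h4 _ (by omega))
  · intro O O' d hO hd
    obtain ⟨n, h⟩ := hD (Sum.inr (Sum.inl (O, O', d)))
    obtain ⟨z, g, g', m1, m2, m3⟩ := h hO hd
    exact ⟨z, by rw [huniq _ _ _ _ m1, huniq _ _ _ _ m2, m3]⟩
  · intro z z' d hz
    obtain ⟨n, h⟩ := hD (Sum.inr (Sum.inr (Sum.inl (z, z', d))))
    obtain ⟨O, g, g', m1, m2, m3⟩ := h hz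
    exact ⟨O, by rw [huniq _ _ _ _ m1, huniq _ _ _ _ m2, m3]⟩
  · intro z m c k
    obtain ⟨n, x, g, m1, m2⟩ := hD (Sum.inr (Sum.inr (Sum.inr (Sum.inl (z, m, c, k)))))
    exact ⟨x, by rw [huniq _ _ _ _ m1]; exact m2⟩
  · intro z a b
    obtain ⟨n, y, g, m1, m2⟩ := hD (Sum.inr (Sum.inr (Sum.inr (Sum.inr (z, a, b)))))
    exact ⟨y, by rw [huniq _ _ _ _ m1]; exact m2⟩

end Pool.Agent.Q238.PlaneFun
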