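import Pool.Agent.Q238.PlaneFun

/-! # The incidence structure -/

namespace Pool.Agent.Q238.PlaneInc

open Pool.Agent.Q238.PlaneFun

structure Good (f : ℕ → ℚ × ℚ → ℚ × ℚ) : Prop where
  p1 : ∀ z O O', O ≠ O' → ¬ Fb O O' (f z O' - f z O)
  p2 : ∀ z z' O O', z ≠ z' → O ≠ O' → f z O' - f z O ≠ f z' O' - f z' O
  pA : ∀ O O' d, O ≠ O' → ¬ Fb O O' d → ∃ z, f z O' - f z O = d
  pB : ∀ z z' d, z ≠ z' → ∃ O, f z O - f z' O = d
  pC : ∀ z m c k, ∃ x, (f z (x, m * x + c)).2 =
      m * (f z (x, m * x + c)).1 + k + (m ^ 2 - m) * c * x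
  pV : ∀ z a b, ∃ y, (f z (a, y)).1 = b

theorem exists_good : ∃ f, Good f := by
  obtain ⟨f, h1, h2, h3, h4, h5, h6⟩ := exists_functions
  exact ⟨f, h1, h2, h3, h4, h5, h6⟩

inductive Pt
  | aff (O g : ℚ × ℚ)
  | inf (s : ℚ)
  | infV
  | infM (z : ℕ)

inductive Ln
  | vert (a b : ℚ)
  | slope (s c k : ℚ)
  | mln (z : ℕ) (h : ℚ × ℚ)
  | W

def inc (f : ℕ → ℚ × ℚ → ℚ × ℚ) : Pt → Ln → Prop
  | .aff O g, .vert a b => O.1 = a ∧ g.1 = b
  | .aff O g, .slope s c k => O.2 = s * O.1 + c ∧ g.2 = s * g.1 + k + (s ^ 2 - s) * c * O.1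
  | .aff O g, .mln z h => g = f z O + h
  | .aff _ _, .W => False
  | .inf _, .vert _ _ => False
  | .inf s, .slope s' _ _ => s = s'
  | .inf _, .mln _ _ => False
  | .inf _, .W => True
  | .infV, .vert _ _ => True
  | .infV, .slope _ _ _ => False
  | .infV, .mln _ _ => False
  | .infV, .W => True
  | .infM _, .vert _ _ => False
  | .infM _, .slope _ _ _ => False
  | .infM z, .mln z' _ => z = z'
  | .infM _, .W => True

variable {f : ℕ → ℚ × ℚ → ℚ × ℚ}

theorem fb_vert {O O' g g' : ℚ × ℚ} (h1 : O.1 = O'.1) (h2 : g.1 = g'.1) : Fb O O' (g' - g) :=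
  Or.inl ⟨h1, by simp [h2]⟩

theorem fb_slope {O O' g g' : ℚ × ℚ} {s c k : ℚ} (hne : O ≠ O') (h1 : O.2 = s * O.1 + c)
    (h2 : O'.2 = s * O'.1 + c) (h3 : g.2 = s * g.1 + k + (s ^ 2 - s) * c * O.1)
    (h4 : g'.2 = s * g'.1 + k + (s ^ 2 - s) * c * O'.1) : Fb O O' (g' - g) := by
  refine Or.inr ⟨?_, s, c, h1, h2, ?_⟩
  · intro h
    apply hne
    apply Prod.ext h
    rw [h1, h2, h]
  · simp only [Prod.snd_sub, Prod.fst_sub]
    rw [h3, h4]; ring

theorem exists_line (hf : Good f) (p q : Pt) (hpq : p ≠ q) : ∃ l, inc f p l ∧ inc f q l := by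
  rcases p with ⟨O, g⟩ | s | _ | z
  · rcases q with ⟨O', g'⟩ | s' | _ | z'
    · by_cases hO : O = O'
      · subst hO
        by_cases hg : g.1 = g'.1
        · exact ⟨.vert O.1 g.1, ⟨rfl, rfl⟩, rfl, hg.symm⟩
        · have hg' : g'.1 - g.1 ≠ 0 := fun h => hg (by linarith)
          refine ⟨.slope ((g'.2 - g.2) / (g'.1 - g.1))
            (O.2 - (g'.2 - g.2) / (g'.1 - g.1) * O.1)
            (g.2 - (g'.2 - g.2) / (g'.1 - g.1) * g.1 -
              (((g'.2 - g.2) / (g'.1 - g.1)) ^ 2 - (g'.2 - g.2) / (g'.1 - g.1)) *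
              (O.2 - (g'.2 - g.2) / (g'.1 - g.1) * O.1) * O.1), ⟨?_, ?_⟩, ?_, ?_⟩
          · ring
          · ring
          · ring
          · have : (g'.2 - g.2) / (g'.1 - g.1) * (g'.1 - g.1) = g'.2 - g.2 :=
              div_mul_cancel₀ _ hg'
            linear_combination -this
      · by_cases hF : Fb O O' (g' - g)
        · rcases hF with ⟨h1, h2⟩ | ⟨-, s, c, h2, h3, h4⟩
          · simp only [Prod.fst_sub] at h2
            exact ⟨.vert O.1 g.1, ⟨rfl, rfl⟩, h1.symm, by linarith⟩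
          · simp only [Prod.snd_sub, Prod.fst_sub] at h4
            refine ⟨.slope s c (g.2 - s * g.1 - (s ^ 2 - s) * c * O.1), ⟨h2, ?_⟩, h3, ?_⟩
            · ring
            · linear_combination h4
        · obtain ⟨z, hz⟩ := hf.pA O O' _ hO hF
          refine ⟨.mln z (g - f z O), ?_, ?_⟩
          · show g = f z O + (g - f z O); abel
          · show g' = f z O' + (g - f z O)
            have : g' = (g' - g) + g := by abel
            rw [this, ← hz]; abel
    · exact ⟨.slope s' (O.2 - s' * O.1) (g.2 - s' * g.1 - (s' ^ 2 - s') * (O.2 - s' * O.1) * O.1),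
        ⟨by ring, by ring⟩, rfl⟩
    · exact ⟨.vert O.1 g.1, ⟨rfl, rfl⟩, trivial⟩
    · exact ⟨.mln z' (g - f z' O), by show g = f z' O + (g - f z' O); abel, rfl⟩
  · rcases q with ⟨O, g⟩ | s' | _ | z'
    · exact ⟨.slope s (O.2 - s * O.1) (g.2 - s * g.1 - (s ^ 2 - s) * (O.2 - s * O.1) * O.1),
        rfl, ⟨by ring, by ring⟩⟩
    all_goals exact ⟨.W, trivial, trivial⟩
  · rcases q with ⟨O, g⟩ | s' | _ | z'
    · exact ⟨.vert O.1 g.1, trivial, ⟨rfl, rfl⟩⟩
    all_goals exact ⟨.W, trivial, trivial⟩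
  · rcases q with ⟨O, g⟩ | s' | _ | z'
    · exact ⟨.mln z (g - f z O), rfl, by show g = f z O + (g - f z O); abel⟩
    all_goals exact ⟨.W, trivial, trivial⟩

theorem exists_point (hf : Good f) (l m : Ln) (hlm : l ≠ m) : ∃ p, inc f p l ∧ inc f p m := by
  have key1 : ∀ a b s c k, ∃ p, inc f p (.vert a b) ∧ inc f p (.slope s c k) := fun a b s c k =>
    ⟨.aff (a, s * a + c) (b, s * b + k + (s ^ 2 - s) * c * a), ⟨rfl, rfl⟩, rfl, rfl⟩
  have key2 : ∀ a b z h, ∃ p, inc f p (.vert a b) ∧ inc f p (.mln z h) := by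
    intro a b z h
    obtain ⟨y, hy⟩ := hf.pV z a (b - h.1)
    exact ⟨.aff (a, y) (f z (a, y) + h), ⟨rfl, by simp [hy]⟩, rfl⟩
  have key3 : ∀ s c k z h, ∃ p, inc f p (.slope s c k) ∧ inc f p (.mln z h) := by
    intro s c k z h
    obtain ⟨x, hx⟩ := hf.pC z s c (k - h.2 + s * h.1)
    refine ⟨.aff (x, s * x + c) (f z (x, s * x + c) + h), ⟨rfl, ?_⟩, rfl⟩
    simp only [Prod.snd_add, Prod.fst_add]
    rw [hx]; ring
  rcases l with ⟨a, b⟩ | ⟨s, c, k⟩ | ⟨z, h⟩ | _
  · rcases m with ⟨a', b'⟩ | ⟨s', c', k'⟩ | ⟨z', h'⟩ | _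
    · exact ⟨.infV, trivial, trivial⟩
    · exact key1 _ _ _ _ _
    · exact key2 _ _ _ _
    · exact ⟨.infV, trivial, trivial⟩
  · rcases m with ⟨a', b'⟩ | ⟨s', c', k'⟩ | ⟨z', h'⟩ | _
    · obtain ⟨p, h1, h2⟩ := key1 a' b' s c k
      exact ⟨p, h2, h1⟩
    · by_cases hs : s = s'
      · exact ⟨.inf s, rfl, hs⟩
      · have hs' : s - s' ≠ 0 := sub_ne_zero.2 hs
        obtain ⟨x, hx⟩ : ∃ x, (s - s') * x = c' - c := ⟨(c' - c) / (s - s'), by field_simp⟩
        obtain ⟨y, hy⟩ : ∃ y, (s - s') * y =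
            k' + (s' ^ 2 - s') * c' * x - k - (s ^ 2 - s) * c * x :=
          ⟨(k' + (s' ^ 2 - s') * c' * x - k - (s ^ 2 - s) * c * x) / (s - s'), by field_simp⟩
        refine ⟨.aff (x, s * x + c) (y, s * y + k + (s ^ 2 - s) * c * x), ⟨rfl, rfl⟩, ?_, ?_⟩
        · show s * x + c = s' * x + c'
          linear_combination hx
        · show s * y + k + (s ^ 2 - s) * c * x = s' * y + k' + (s' ^ 2 - s') * c' * x
          linear_combination hy
    · exact key3 _ _ _ _ _
    · exact ⟨.inf s, rfl, trivial⟩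
  · rcases m with ⟨a', b'⟩ | ⟨s', c', k'⟩ | ⟨z', h'⟩ | _
    · obtain ⟨p, h1, h2⟩ := key2 a' b' z h
      exact ⟨p, h2, h1⟩
    · obtain ⟨p, h1, h2⟩ := key3 s' c' k' z h
      exact ⟨p, h2, h1⟩
    · by_cases hz : z = z'
      · exact ⟨.infM z, rfl, hz⟩
      · obtain ⟨O, hO⟩ := hf.pB z z' (h' - h) hz
        refine ⟨.aff O (f z O + h), rfl, ?_⟩
        show f z O + h = f z' O + h'
        have : f z O = f z' O + (h' - h) := by rw [← hO]; abel
        rw [this]; abel
    · exact ⟨.infM z, rfl, trivial⟩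
  · rcases m with ⟨a', b'⟩ | ⟨s', c', k'⟩ | ⟨z', h'⟩ | _
    · exact ⟨.infV, trivial, trivial⟩
    · exact ⟨.inf s', trivial, rfl⟩
    · exact ⟨.infM z', trivial, rfl⟩
    · exact absurd rfl hlm

/-- Two affine points on two lines. -/
theorem uniq_aff (hf : Good f) (O g O' g' : ℚ × ℚ) (l m : Ln) (h1 : inc f (.aff O g) l)
    (h2 : inc f (.aff O' g') l) (h3 : inc f (.aff O g) m) (h4 : inc f (.aff O' g') m) :
    Pt.aff O g = Pt.aff O' g' ∨ l = m := by
  have kVS : ∀ a b s c k, inc f (.aff O g) (.vert a b) → inc f (.aff O' g') (.vert a b) →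
      inc f (.aff O g) (.slope s c k) → inc f (.aff O' g') (.slope s c k) →
      Pt.aff O g = Pt.aff O' g' := by
    rintro a b s c k ⟨e1, e2⟩ ⟨e3, e4⟩ ⟨e5, e6⟩ ⟨e7, e8⟩
    have a1 : O = O' := Prod.ext (e1.trans e3.symm) (by rw [e5, e7, e1, e3])
    have a2 : g = g' := Prod.ext (e2.trans e4.symm) (by rw [e6, e8, e1, e3, e2, e4])
    rw [a1, a2]
  have kVM : ∀ a b z h, inc f (.aff O g) (.vert a b) → inc f (.aff O' g') (.vert a b) →
      inc f (.aff O g) (.mln z h) → inc f (.aff O' g') (.mln z h) →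
      Pt.aff O g = Pt.aff O' g' := by
    rintro a b z h ⟨e1, e2⟩ ⟨e3, e4⟩ e5 e6
    by_cases hO : O = O'
    · subst hO
      have : g = g' := (show g = f z O + h from e5).trans (show g' = f z O + h from e6).symm
      rw [this]
    · exfalso
      have e5 : g = f z O + h := e5
      have e6 : g' = f z O' + h := e6
      have := fb_vert (O := O) (O' := O') (g := g) (g' := g') (e1.trans e3.symm) (e2.trans e4.symm)
      rw [e5, e6, add_sub_add_right_eq_sub] at this
      exact hf.p1 z O O' hO this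
  have kSM : ∀ s c k z h, inc f (.aff O g) (.slope s c k) → inc f (.aff O' g') (.slope s c k) →
      inc f (.aff O g) (.mln z h) → inc f (.aff O' g') (.mln z h) →
      Pt.aff O g = Pt.aff O' g' := by
    rintro s c k z h ⟨e1, e2⟩ ⟨e3, e4⟩ e5 e6
    by_cases hO : O = O'
    · subst hO
      have : g = g' := (show g = f z O + h from e5).trans (show g' = f z O + h from e6).symm
      rw [this]
    · exfalso
      have e5 : g = f z O + h := e5
      have e6 : g' = f z O' + h := e6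
      have := fb_slope (k := k) hO e1 e3 e2 e4
      rw [e5, e6, add_sub_add_right_eq_sub] at this
      exact hf.p1 z O O' hO this
  rcases l with ⟨a, b⟩ | ⟨s, c, k⟩ | ⟨z, h⟩ | _
  · rcases m with ⟨a', b'⟩ | ⟨s', c', k'⟩ | ⟨z', h'⟩ | _
    · right
      rw [← h1.1, ← h1.2, ← h3.1, ← h3.2]
    · exact Or.inl (kVS _ _ _ _ _ h1 h2 h3 h4)
    · exact Or.inl (kVM _ _ _ _ h1 h2 h3 h4)
    · exact absurd h3 id
  · rcases m with ⟨a', b'⟩ | ⟨s', c', k'⟩ | ⟨z', h'⟩ | _
    · exact Or.inl (kVS _ _ _ _ _ h3 h4 h1 h2)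
    · obtain ⟨e1, e2⟩ := h1
      obtain ⟨e3, e4⟩ := h2
      obtain ⟨e5, e6⟩ := h3
      obtain ⟨e7, e8⟩ := h4
      by_cases hs : s = s'
      · subst hs
        right
        have a1 : c = c' := by linarith
        subst a1
        have a2 : k = k' := by linarith
        rw [a2]
      · left
        have hs' : s - s' ≠ 0 := sub_ne_zero.2 hs
        have b1 : (s - s') * (O.1 - O'.1) = 0 := by linear_combination e3 + e5 - e1 - e7
        have a1 : O.1 = O'.1 := by
          rcases mul_eq_zero.1 b1 with h | h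
          · exact absurd h hs'
          · linarith
        have a2 : O.2 = O'.2 := by rw [e1, e3, a1]
        have b2 : (s - s') * (g.1 - g'.1) = 0 := by
          rw [a1] at e2 e6
          linear_combination e4 + e6 - e2 - e8
        have a3 : g.1 = g'.1 := by
          rcases mul_eq_zero.1 b2 with h | h
          · exact absurd h hs'
          · linarith
        have a4 : g.2 = g'.2 := by rw [e2, e4, a1, a3]
        rw [Prod.ext a1 a2, Prod.ext a3 a4]
    · exact Or.inl (kSM _ _ _ _ _ h1 h2 h3 h4)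
    · exact absurd h3 id
  · rcases m with ⟨a', b'⟩ | ⟨s', c', k'⟩ | ⟨z', h'⟩ | _
    · exact Or.inl (kVM _ _ _ _ h3 h4 h1 h2)
    · exact Or.inl (kSM _ _ _ _ _ h3 h4 h1 h2)
    · have e1 : g = f z O + h := h1
      have e2 : g' = f z O' + h := h2
      have e3 : g = f z' O + h' := h3
      have e4 : g' = f z' O' + h' := h4
      by_cases hz : z = z'
      · subst hz
        right
        have : h = h' := add_left_cancel (e1.symm.trans e3)
        rw [this]
      · left
        by_cases hO : O = O'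
        · subst hO
          rw [e1.trans e2.symm]
        · exfalso
          apply hf.p2 z z' O O' hz hO
          have x1 : f z O' - f z O = g' - g := by rw [e1, e2]; abel
          have x2 : f z' O' - f z' O = g' - g := by rw [e3, e4]; abel
          rw [x1, x2]
    · exact absurd h3 id
  · exact absurd h1 id

/-- An affine point and a point at infinity. -/
theorem uniq_mixed (O g : ℚ × ℚ) (q : Pt) (l m : Ln) (hq : inc f q .W)
    (h1 : inc f (.aff O g) l) (h2 : inc f q l) (h3 : inc f (.aff O g) m) (h4 : inc f q m) :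
    l = m := by
  rcases q with ⟨O', g'⟩ | s0 | _ | z0
  · exact absurd hq id
  · rcases l with ⟨a, b⟩ | ⟨s, c, k⟩ | ⟨z, h⟩ | _
    · exact absurd h2 id
    · rcases m with ⟨a', b'⟩ | ⟨s', c', k'⟩ | ⟨z', h'⟩ | _
      · exact absurd h4 id
      · have e1 : s0 = s := h2
        have e2 : s0 = s' := h4
        subst e1 e2
        obtain ⟨e1, e2⟩ := h1
        obtain ⟨e3, e4⟩ := h3
        have a1 : c = c' := by linarith
        subst a1
        have a2 : k = k' := by linarith
        rw [a2]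
      · exact absurd h4 id
      · exact absurd h3 id
    · exact absurd h2 id
    · exact absurd h1 id
  · rcases l with ⟨a, b⟩ | ⟨s, c, k⟩ | ⟨z, h⟩ | _
    · rcases m with ⟨a', b'⟩ | ⟨s', c', k'⟩ | ⟨z', h'⟩ | _
      · rw [← h1.1, ← h1.2, ← h3.1, ← h3.2]
      · exact absurd h4 id
      · exact absurd h4 id
      · exact absurd h3 id
    · exact absurd h2 id
    · exact absurd h2 id
    · exact absurd h1 id
  · rcases l with ⟨a, b⟩ | ⟨s, c, k⟩ | ⟨z, h⟩ | _
    · exact absurd h2 id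
    · exact absurd h2 id
    · rcases m with ⟨a', b'⟩ | ⟨s', c', k'⟩ | ⟨z', h'⟩ | _
      · exact absurd h4 id
      · exact absurd h4 id
      · have e1 : z0 = z := h2
        have e2 : z0 = z' := h4
        subst e1 e2
        have e3 : g = f z0 O + h := h1
        have e4 : g = f z0 O + h' := h3
        have : h = h' := add_left_cancel (e3.symm.trans e4)
        rw [this]
      · exact absurd h3 id
    · exact absurd h1 id

/-- A line through two different points at infinity is `W`. -/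
theorem uniq_inf (p q : Pt) (l : Ln) (hp : inc f p .W) (hq : inc f q .W)
    (h1 : inc f p l) (h2 : inc f q l) : p = q ∨ l = .W := by
  rcases p with ⟨O, g⟩ | s | _ | z
  · exact absurd hp id
  all_goals
    rcases q with ⟨O', g'⟩ | s' | _ | z'
    · exact absurd hq id
    all_goals
      rcases l with ⟨a, b⟩ | ⟨s1, c1, k1⟩ | ⟨z1, h3⟩ | _
      all_goals first
        | exact absurd h1 id
        | exact absurd h2 id
        | exact Or.inr rfl
        | exact Or.inl rfl
        | (left; exact congrArg _ ((show _ = _ from h1).trans (show _ = _ from h2).symm))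

theorem inc_W_or (p : Pt) : (∃ O g, p = .aff O g) ∨ inc f p .W := by
  rcases p with ⟨O, g⟩ | s | _ | z
  · exact Or.inl ⟨O, g, rfl⟩
  all_goals exact Or.inr trivial

theorem uniq (hf : Good f) (p q : Pt) (l m : Ln) (h1 : inc f p l) (h2 : inc f q l)
    (h3 : inc f p m) (h4 : inc f q m) : p = q ∨ l = m := by
  rcases inc_W_or (f := f) p with ⟨O, g, rfl⟩ | hp
  · rcases inc_W_or (f := f) q with ⟨O', g', rfl⟩ | hq
    · exact uniq_aff hf O g O' g' l m h1 h2 h3 h4
    · exact Or.inr (uniq_mixed O g q l m hq h1 h2 h3 h4)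
  · rcases inc_W_or (f := f) q with ⟨O', g', rfl⟩ | hq
    · exact Or.inr (uniq_mixed O' g' p l m hp h2 h1 h4 h3)
    · rcases uniq_inf p q l hp hq h1 h2 with h | h
      · exact Or.inl h
      · rcases uniq_inf p q m hp hq h3 h4 with h' | h'
        · exact Or.inl h'
        · exact Or.inr (h.trans h'.symm)

end Pool.Agent.Q238.PlaneInc
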