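import Pool.Agent.Q256.UG.Stm

/-!
Project UG, job COG: points of a short window near an asymptote are collinear.
-/

set_option autoImplicit false

namespace Pool.Agent.Q238.UG

open Finset MvPolynomial
open Pool.Agent.Q256.UP (PBox)
open Pool.Agent.Q256.UI (ev tc Q kap rho)
open Pool.Agent.Q256.UG

theorem Q_nt (d : ℕ) (F : MvPolynomial (Fin 2) ℤ) (θ x u : ℝ) :
    Q d (nt d F θ) x u = Q d (tc F θ) x u / |tc F θ d 1| := by
  unfold Q nt
  rw [Finset.sum_div]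
  apply Finset.sum_congr rfl
  intro k _
  rw [Finset.sum_div]
  apply Finset.sum_congr rfl
  intro j _
  ring

theorem Q_le (hT : Pool.Agent.Q256.UI.S_TAY) {d c : ℕ} {A : ℝ} {H : ℕ}
    {F : MvPolynomial (Fin 2) ℤ} {θ T W : ℝ} (hG : Gd d c A H F θ) {p : ℤ × ℤ}
    (hp : p ∈ Ap d F θ A H T W) :
    |Q d (nt d F θ) p.1 ((p.2 : ℝ) - θ * p.1)| ≤ W / |tc F θ d 1| := by
  have h1 := hT.1 d F θ p.1 ((p.2 : ℝ) - θ * p.1) hG.box.1
  rw [show θ * (p.1 : ℝ) + ((p.2 : ℝ) - θ * p.1) = p.2 by ring, hT.2] at h1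
  rw [Q_nt, ← h1, abs_div, abs_abs]
  have h2 := hp.2.2.2
  gcongr

theorem cog : S_GD2 → S_SPG → Pool.Agent.Q256.UI.S_TAY → S_COG := by
  intro hGD hSPG hTAY d c A hd hA
  obtain ⟨C1, hC1, h1⟩ := hGD d A hd hA
  obtain ⟨C2, hC2, h2⟩ := hSPG d c A hd hA
  refine ⟨1 / (8 * A * C1), max C2 (256 * A ^ 2 * C1), by positivity,
    hC2.trans (le_max_left _ _), ?_⟩
  intro H T W L θ F hH hT hG hW0 hW hL0 hL p hp q hq r hr hpq hqr hrp
  have hH1 : (1 : ℝ) ≤ H := by exact_mod_cast hH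
  have hTS : C2 * (H : ℝ) ^ 2 ≤ T := by
    refine le_trans ?_ hT
    have := le_max_left C2 (256 * A ^ 2 * C1)
    gcongr
  have hTG : 256 * A ^ 2 * C1 * (H : ℝ) ^ 2 ≤ T := by
    refine le_trans ?_ hT
    have := le_max_right C2 (256 * A ^ 2 * C1)
    gcongr
  have hT1 : 1 ≤ T := by nlinarith
  have hT0 : 0 < T := by linarith
  by_cases e1 : p = q
  · subst e1; ring
  by_cases e2 : q = r
  · subst e2; ring
  by_cases e3 : r = p
  · subst e3; ring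
  have n1 := (h2 H T W θ F hH hTS hG hW0 hW p hp q hq e1).1
  have n2 := (h2 H T W θ F hH hTS hG hW0 hW q hq r hr e2).1
  have n3 := (h2 H T W θ F hH hTS hG hW0 hW r hr p hp e3).1
  have hint : ∀ a b : ℤ, a ≠ b → (1 : ℝ) ≤ |(a : ℝ) - b| := by
    intro a b hab
    have : (1 : ℤ) ≤ |a - b| := Int.one_le_abs (sub_ne_zero.mpr hab)
    exact_mod_cast this
  set D := |tc F θ d 1| with hD
  have hD0 : 0 < D := by
    have := hG.th.one
    linarith
  have hD16 : 1 / 16 ≤ D := hG.th.one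
  set K : ℝ := A * H / D with hK
  have hK1 : 1 ≤ K := hG.k1
  have hK16 : K ≤ 16 * A * H := by
    rw [hK, div_le_iff₀ hD0]
    have : 0 ≤ A * H := by positivity
    nlinarith
  have hKT : C1 * K ^ 2 ≤ T := by
    calc C1 * K ^ 2 ≤ C1 * (16 * A * H) ^ 2 := by gcongr
      _ = 256 * A ^ 2 * C1 * (H : ℝ) ^ 2 := by ring
      _ ≤ T := hTG
  have hW' : W / D ≤ K * T ^ (d - 3) := by
    calc W / D ≤ (A * H * T ^ (d - 3)) / D := by gcongr
      _ = K * T ^ (d - 3) := by rw [hK]; ring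
  have hW'' : W / D ≤ A * K * T ^ (d - 3) := by
    refine hW'.trans ?_
    have : 0 ≤ K * T ^ (d - 3) := by positivity
    nlinarith
  have hu : ∀ s : ℤ × ℤ, s ∈ Ap d F θ A H T W → |(s.2 : ℝ) - θ * s.1| ≤ A * K := by
    intro s hs
    have h3 : |(s.2 : ℝ) - θ * s.1| ≤ K := hs.2.2.1
    nlinarith
  have key := h1 K T (W / D) (nt d F θ) hK1 hKT hG.bg (by positivity) hW''
    p.1 q.1 r.1 ((p.2 : ℝ) - θ * p.1) ((q.2 : ℝ) - θ * q.1) ((r.2 : ℝ) - θ * r.1)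
    hp.1 hp.2.1 hq.1 hq.2.1 hr.1 hr.2.1 (hint _ _ n1) (hint _ _ n2) (hint _ _ n3)
    (hu p hp) (hu q hq) (hu r hr) (Q_le hTAY hG hp) (Q_le hTAY hG hq) (Q_le hTAY hG hr)
  have hdet : ((p.2 : ℝ) - θ * p.1) * (q.1 - r.1) + ((q.2 : ℝ) - θ * q.1) * (r.1 - p.1) +
      ((r.2 : ℝ) - θ * r.1) * (p.1 - q.1) =
      ((p.2 * (q.1 - r.1) + q.2 * (r.1 - p.1) + r.2 * (p.1 - q.1) : ℤ) : ℝ) := by
    push_cast; ring
  rw [hdet] at key
  have hKL : K * L / T ≤ 1 / (8 * C1) := by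
    rw [div_le_iff₀ hT0, hK]
    have : A * H / D * L = A * (L * H) / D := by ring
    rw [this, div_le_iff₀ hD0]
    calc A * (L * H) ≤ A * (1 / (8 * A * C1) * T * D) := by gcongr
      _ = 1 / (8 * C1) * T * D := by field_simp
  have hKL0 : 0 ≤ K * L / T := by positivity
  have hb1 : K ^ 3 / T ^ 3 * (|(p.1 : ℝ) - q.1| * |(q.1 : ℝ) - r.1| * |(r.1 : ℝ) - p.1|) ≤
      (K * L / T) ^ 3 := by
    calc _ ≤ K ^ 3 / T ^ 3 * (L * L * L) := by gcongr
      _ = (K * L / T) ^ 3 := by rw [div_pow, mul_pow]; ring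
  have hb2 : W / D / T ^ (d - 1) * (|(p.1 : ℝ) - q.1| + |(q.1 : ℝ) - r.1| + |(r.1 : ℝ) - p.1|) ≤
      3 * (K * L / T) := by
    have hp1 : T ^ (d - 1) = T ^ (d - 3) * T ^ 2 := by
      rw [← pow_add]; congr 1; omega
    have hw3 : W / D / T ^ (d - 1) ≤ K / T := by
      rw [div_le_iff₀ (by positivity), hp1]
      refine hW'.trans ?_
      have e : K / T * (T ^ (d - 3) * T ^ 2) = K * T ^ (d - 3) * T := by
        field_simp
      rw [e]
      have : 0 ≤ K * T ^ (d - 3) := by positivity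
      nlinarith
    calc _ ≤ K / T * (L + L + L) := by gcongr
      _ = 3 * (K * L / T) := by ring
  have hfin : C1 * (K ^ 3 / T ^ 3 *
      (|(p.1 : ℝ) - q.1| * |(q.1 : ℝ) - r.1| * |(r.1 : ℝ) - p.1|) +
      W / D / T ^ (d - 1) * (|(p.1 : ℝ) - q.1| + |(q.1 : ℝ) - r.1| + |(r.1 : ℝ) - p.1|)) < 1 := by
    set X := K * L / T with hX
    have hX1 : X ≤ 1 := by
      refine hKL.trans ?_
      rw [div_le_one (by positivity)]
      linarith
    have hX3 : X ^ 3 ≤ X := by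
      have : X ^ 2 ≤ 1 := pow_le_one₀ hKL0 hX1
      calc X ^ 3 = X ^ 2 * X := by ring
        _ ≤ 1 * X := by gcongr
        _ = X := one_mul X
    have hCX : C1 * X ≤ 1 / 8 := by
      calc C1 * X ≤ C1 * (1 / (8 * C1)) := by gcongr
        _ = 1 / 8 := by field_simp
    have : C1 * (K ^ 3 / T ^ 3 *
      (|(p.1 : ℝ) - q.1| * |(q.1 : ℝ) - r.1| * |(r.1 : ℝ) - p.1|) +
      W / D / T ^ (d - 1) * (|(p.1 : ℝ) - q.1| + |(q.1 : ℝ) - r.1| + |(r.1 : ℝ) - p.1|)) ≤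
      C1 * (X + 3 * X) := by
      have h5 := hb1.trans hX3
      gcongr
    have e : C1 * (X + 3 * X) = 4 * (C1 * X) := by ring
    rw [e] at this
    linarith
  have hlt := lt_of_le_of_lt key hfin
  have : |p.2 * (q.1 - r.1) + q.2 * (r.1 - p.1) + r.2 * (p.1 - q.1)| < 1 := by
    exact_mod_cast hlt
  exact Int.abs_lt_one_iff.mp this

end Pool.Agent.Q238.UG
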